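import Pool.Agent.H329.BL.Main

/-!
# Baker's pairs: no chains with polynomial entries

For `k ≥ 2` let `A_k = [[1, k], [k - 1, 1]]` and `B_k = [[1, k (k - 1)], [1, 1]]`. These matrices are
similar over `ℤ` and shift equivalent over `ℕ`; it is not known whether they are strong shift
equivalent over `ℕ` for all `k` (`k = 3` is due to Baker, `k = 4, 5, 6` are in the library of earlier
results, by computer).

**Chains with polynomial entries.** Can one write down the chains of elementary equivalences with a
parameter, `A_k = R_1 S_1`, `S_1 R_1 = R_2 S_2`, ..., where the entries of the matrices `R_i`, `S_i` are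
polynomials in `x`, `k = f(x)`? It is shown that this is impossible, not only for all `k`, but also for
the `k` in an arithmetic progression, and for all polynomials `f` of odd degree, and for all polynomials
`f` for which `f² - f - 1` is irreducible; the matrices can have any sizes, the chain can have any
length, and only the nonnegativity of the values of the entries at infinitely many `x` is used. The same
is proved for the pairs `[[t, b c], [1, t]]`, `[[t, b], [c, t]]` with nonconstant polynomials `b`, `c`,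
`2 deg t < deg b + deg c`, if `b c - t²` is irreducible, or if the degrees of `b`, `c` are odd and the
degrees of all irreducible factors of `b c - t²` are even.

Proof. A chain gives a shift equivalence `R`, `S` with polynomial entries, and `A R = R B` gives
`R = [[c w, b z], [z, w]]`, `S = [[x, b y], [y, c x]]`. The product of `c w² + b z²` and `c x² + b y²` has
degree at most `L deg (b c)`, as no leading terms can cancel, and the product of the determinants
`c w² - b z²` and `c x² - b y²` is `± (b c - t²) ^ L`, of degree `L deg (b c)`. So there is no cancellation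
in `c w² - b z²`. If `b` and `c` have odd degree it follows that the degree of this divisor of
`(b c - t²) ^ L` is odd. If `Q = b c - t²` is irreducible then one can divide `(w, z)` by `t + √(b c)` or its
conjugate, without creating cancellation, until `c w² - b z²` is a constant, a contradiction. The
irreducible factors of `f² - f - 1` have even degree, as their roots generate fields which contain `√5`.
-/

set_option autoImplicit false

namespace Pool.Agent.Results.MP_993212_an.NoPolynomialChains

open Matrix Polynomial Pool.Agent.H329.BL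

/-- A square matrix of any size whose entries are polynomials. -/
def PolyMat := Σ n : ℕ, Matrix (Fin n) (Fin n) ℚ[X]

/-- Every entry has nonnegative values at infinitely many natural numbers. -/
def OftenNonneg {m n : ℕ} (M : Matrix (Fin m) (Fin n) ℚ[X]) : Prop :=
  ∀ i j, {x : ℕ | 0 ≤ (M i j).eval (x : ℚ)}.Infinite

/-- Elementary equivalence with polynomial entries: `U = R S`, `V = S R`. -/
def PolyElem (U V : PolyMat) : Prop :=
  ∃ (R : Matrix (Fin U.1) (Fin V.1) ℚ[X]) (S : Matrix (Fin V.1) (Fin U.1) ℚ[X]),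
    OftenNonneg R ∧ OftenNonneg S ∧ U.2 = R * S ∧ V.2 = S * R

/-- A finite chain of elementary equivalences with polynomial entries. -/
def PolySSE (U V : Matrix (Fin 2) (Fin 2) ℚ[X]) : Prop :=
  Relation.TransGen PolyElem ⟨2, U⟩ ⟨2, V⟩

/-- A shift equivalence of lag `L` with polynomial entries. -/
def PolySE (L : ℕ) (U V : Matrix (Fin 2) (Fin 2) ℚ[X]) : Prop :=
  ∃ R S : Matrix (Fin 2) (Fin 2) ℚ[X], OftenNonneg R ∧ OftenNonneg S ∧
    U ^ L = R * S ∧ V ^ L = S * R ∧ U * R = R * V ∧ S * U = V * S

/-- the leading coefficients are nonnegative -/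
def LC {m n : ℕ} (M : Matrix (Fin m) (Fin n) ℚ[X]) : Prop := ∀ i j, 0 ≤ (M i j).leadingCoeff

theorem OftenNonneg.lc {m n : ℕ} {M : Matrix (Fin m) (Fin n) ℚ[X]} (h : OftenNonneg M) : LC M :=
  fun i j => lc_of_infinite (h i j)

theorem LC.mul {l m n : ℕ} {M : Matrix (Fin l) (Fin m) ℚ[X]} {N : Matrix (Fin m) (Fin n) ℚ[X]}
    (hM : LC M) (hN : LC N) : LC (M * N) := by
  intro i j
  rw [Matrix.mul_apply]
  refine Finset.sum_induction _ (fun p : ℚ[X] => 0 ≤ p.leadingCoeff) (fun p q hp hq =>
    (add_lc hp hq).2) (by simp) fun k _ => mul_lc (hM i k) (hN k j)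

theorem of_chain {U V : PolyMat} (h : Relation.TransGen PolyElem U V) :
    ∃ (L : ℕ) (R : Matrix (Fin U.1) (Fin V.1) ℚ[X]) (S : Matrix (Fin V.1) (Fin U.1) ℚ[X]),
      LC R ∧ LC S ∧ U.2 ^ L = R * S ∧ V.2 ^ L = S * R ∧ U.2 * R = R * V.2 ∧
        S * U.2 = V.2 * S := by
  induction h with
  | single h =>
    obtain ⟨R, S, h1, h2, h3, h4⟩ := h
    refine ⟨1, R, S, h1.lc, h2.lc, by rw [pow_one, h3], by rw [pow_one, h4], ?_, ?_⟩
    · rw [h3, h4, Matrix.mul_assoc]
    · rw [h3, h4, Matrix.mul_assoc]
  | @tail Y Z _ h ih =>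
    obtain ⟨L, R1, S1, l1, l2, e1, e2, e3, e4⟩ := ih
    obtain ⟨R2, S2, h1, h2, h3, h4⟩ := h
    have hc : ∀ n : ℕ, R2 * Z.2 ^ n = Y.2 ^ n * R2 := by
      intro n
      induction n with
      | zero => simp
      | succ n ihn =>
        rw [pow_succ, ← Matrix.mul_assoc, ihn, pow_succ, Matrix.mul_assoc, Matrix.mul_assoc]
        congr 1
        rw [h3, h4, Matrix.mul_assoc]
    have hd : ∀ n : ℕ, U.2 ^ n * R1 = R1 * Y.2 ^ n := by
      intro n
      induction n with
      | zero => simp
      | succ n ihn =>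
        rw [pow_succ, Matrix.mul_assoc, e3, ← Matrix.mul_assoc, ihn, pow_succ, Matrix.mul_assoc]
    refine ⟨L + 1, R1 * R2, S2 * S1, l1.mul h1.lc, h2.lc.mul l2, ?_, ?_, ?_, ?_⟩
    · calc U.2 ^ (L + 1) = U.2 * (R1 * S1) := by rw [pow_succ', e1]
        _ = R1 * Y.2 * S1 := by rw [← Matrix.mul_assoc, e3]
        _ = R1 * (R2 * S2) * S1 := by rw [← h3]
        _ = R1 * R2 * (S2 * S1) := by simp only [Matrix.mul_assoc]
    · calc Z.2 ^ (L + 1) = S2 * R2 * Z.2 ^ L := by rw [pow_succ', h4]
        _ = S2 * (Y.2 ^ L * R2) := by rw [Matrix.mul_assoc, hc]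
        _ = S2 * (S1 * R1 * R2) := by rw [e2]
        _ = S2 * S1 * (R1 * R2) := by simp only [Matrix.mul_assoc]
    · calc U.2 * (R1 * R2) = R1 * (Y.2 * R2) := by rw [← Matrix.mul_assoc, e3, Matrix.mul_assoc]
        _ = R1 * (R2 * Z.2) := by rw [h3, h4, Matrix.mul_assoc]
        _ = R1 * R2 * Z.2 := by rw [Matrix.mul_assoc]
    · calc S2 * S1 * U.2 = S2 * (Y.2 * S1) := by rw [Matrix.mul_assoc, e4]
        _ = Z.2 * S2 * S1 := by rw [h3, h4]; simp only [Matrix.mul_assoc]
        _ = Z.2 * (S2 * S1) := by rw [Matrix.mul_assoc]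

theorem XY_pow (t D : ℚ[X]) (L : ℕ) :
    ((!![t, D; 1, t] : Matrix (Fin 2) (Fin 2) ℚ[X]) ^ L) 0 0 = (XY t D L).1 ∧
    ((!![t, D; 1, t] : Matrix (Fin 2) (Fin 2) ℚ[X]) ^ L) 1 0 = (XY t D L).2 := by
  induction L with
  | zero => simp [XY]
  | succ L ih =>
    rw [pow_succ']
    simp only [Matrix.mul_apply, Fin.sum_univ_two, XY]
    rw [← ih.1, ← ih.2]
    constructor <;> simp

theorem no_lc {t b c : ℚ[X]} (hb : 0 < b.leadingCoeff) (hc : 0 < c.leadingCoeff)
    (hb1 : 0 < b.natDegree) (hc1 : 0 < c.natDegree)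
    (ht : 2 * t.natDegree < b.natDegree + c.natDegree) (hQ : NoUniform t b c) (L : ℕ)
    (R S : Matrix (Fin 2) (Fin 2) ℚ[X]) (hR : LC R) (hS : LC S)
    (h1 : (!![t, b * c; 1, t] : Matrix (Fin 2) (Fin 2) ℚ[X]) ^ L = R * S)
    (h2 : !![t, b * c; 1, t] * R = R * !![t, b; c, t]) : False := by
  have r00 : R 0 0 = c * R 1 1 := by
    have := congrFun (congrFun h2 1) 0
    simp only [Matrix.mul_apply, Fin.sum_univ_two] at this
    simp at this
    linear_combination this
  have r01 : R 0 1 = b * R 1 0 := by
    have := congrFun (congrFun h2 1) 1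
    simp only [Matrix.mul_apply, Fin.sum_univ_two] at this
    simp at this
    linear_combination this
  obtain ⟨x1, x2⟩ := XY_pow t (b * c) L
  rw [h1] at x1 x2
  simp only [Matrix.mul_apply, Fin.sum_univ_two] at x1 x2
  rw [r00, r01] at x1
  exact core L hb hc hb1 hc1 ht hQ (hR 1 1) (hR 1 0) (hS 0 0) (hS 1 0) x1
    (by rw [← x2]; ring)

/-- **Baker's pairs: no chains with polynomial entries.**

(1) Let `t`, `b`, `c` be polynomials, `b` and `c` not constant with positive leading coefficients,
`2 deg t < deg b + deg c`, and let `b c - t²` be irreducible, or let the degrees of `b` and `c` be odd and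
the degrees of all irreducible factors of `b c - t²` even. Then there is no chain of elementary
equivalences with polynomial entries (through matrices of any sizes) from `[[t, b c], [1, t]]` to
`[[t, b], [c, t]]`, and no shift equivalence.

(2) Let `f` be a polynomial of odd degree with positive leading coefficient, for example
`f = a x + m`, `a > 0`, or a polynomial which is not constant for which `f² - f - 1` is irreducible. Then
there is no chain and no shift equivalence with polynomial entries between Baker's matrices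
`[[1, f (f - 1)], [1, 1]]` and `[[1, f], [f - 1, 1]]`, while these matrices are similar by a matrix with
determinant `-1` with entries in `ℤ[f]`. -/
theorem result :
    (∀ t b c : ℚ[X], 0 < b.leadingCoeff → 0 < c.leadingCoeff → 0 < b.natDegree →
      0 < c.natDegree → 2 * t.natDegree < b.natDegree + c.natDegree →
      (Irreducible (b * c - t ^ 2) ∨ (Odd b.natDegree ∧ Odd c.natDegree ∧
        ∀ π : ℚ[X], Irreducible π → π ∣ b * c - t ^ 2 → Even π.natDegree)) →
      ¬ PolySSE !![t, b * c; 1, t] !![t, b; c, t] ∧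
        ∀ L : ℕ, ¬ PolySE L !![t, b * c; 1, t] !![t, b; c, t]) ∧
    ∀ f : ℚ[X], 0 < f.leadingCoeff → 0 < f.natDegree →
      (Odd f.natDegree ∨ Irreducible (f ^ 2 - f - 1)) →
      ¬ PolySSE !![1, f * (f - 1); 1, 1] !![1, f; f - 1, 1] ∧
        (∀ L : ℕ, ¬ PolySE L !![1, f * (f - 1); 1, 1] !![1, f; f - 1, 1]) ∧
        ((!![1, f * (f - 1); 1, 1] : Matrix (Fin 2) (Fin 2) ℚ[X]) * !![f - 1, f; 1, 1] =
          !![f - 1, f; 1, 1] * !![1, f; f - 1, 1]) ∧
        (!![f - 1, f; 1, 1] : Matrix (Fin 2) (Fin 2) ℚ[X]).det = -1 := by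
  have part1 : ∀ t b c : ℚ[X], 0 < b.leadingCoeff → 0 < c.leadingCoeff → 0 < b.natDegree →
      0 < c.natDegree → 2 * t.natDegree < b.natDegree + c.natDegree →
      (Irreducible (b * c - t ^ 2) ∨ (Odd b.natDegree ∧ Odd c.natDegree ∧
        ∀ π : ℚ[X], Irreducible π → π ∣ b * c - t ^ 2 → Even π.natDegree)) →
      ¬ PolySSE !![t, b * c; 1, t] !![t, b; c, t] ∧
        ∀ L : ℕ, ¬ PolySE L !![t, b * c; 1, t] !![t, b; c, t] := by
    intro t b c hb hc hb1 hc1 ht hQ
    constructor
    · intro h
      obtain ⟨L, R, S, h1, h2, h3, -, h5, -⟩ := of_chain h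
      exact no_lc hb hc hb1 hc1 ht hQ L R S h1 h2 h3 h5
    · rintro L ⟨R, S, h1, h2, h3, -, h5, -⟩
      exact no_lc hb hc hb1 hc1 ht hQ L R S h1.lc h2.lc h3 h5
  refine ⟨part1, ?_⟩
  · intro f hf hf1 hQ
    have e1 : (f - 1).natDegree = f.natDegree := by
      have : (f - 1).natDegree = (f - C 1).natDegree := by rw [C_1]
      rw [this, natDegree_sub_C]
    have e2 : 0 < (f - 1).leadingCoeff := by
      rw [leadingCoeff, e1, coeff_sub, coeff_one, if_neg (by omega), sub_zero]
      exact hf
    have h := part1 1 f (f - 1) hf e2 hf1 (by rw [e1]; exact hf1)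
      (by rw [natDegree_one]; omega) (by
        have e3 : f * (f - 1) - 1 ^ 2 = f ^ 2 - f - 1 := by ring
        rw [e3]
        rcases hQ with h | h
        · exact Or.inr ⟨h, by rw [e1]; exact h, fun π h1 h2 => even_of_prime h1.prime h2⟩
        · exact Or.inl h)
    refine ⟨h.1, h.2, ?_, ?_⟩
    · ext i l
      fin_cases i <;> fin_cases l <;> simp [Matrix.mul_apply, Fin.sum_univ_two]
      all_goals ring_nf
    · rw [Matrix.det_fin_two_of]; ring

end Pool.Agent.Results.MP_993212_an.NoPolynomialChains
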